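import Mathlib
import Pool.Agent.W418.FMT.Defs
import Pool.Agent.W418.FMT.T1
open MeasureTheory Filter Topology Complex

namespace FMT

def Link : Prop := ∀ (L : Set ℝ) (_ : BD L) (s : ℝ) (_ : s ≠ 0)
    (_ : ¬ Tendsto (mean L s) atTop (𝓝 0)) (f : ℝ → ℂ) (_ : Integrable f) (w : ℂ)
    (_ : ∀ᵐ x : ℝ, Summable (fun l : L => f (x - l)) ∧ ∑' l : L, f (x - l) = w),
    ft f s = 0

theorem criterion (HL : Link) (H1 : PerTrig) (H2 : ExpPoly) (L : Set ℝ) (hL : BD L) (d : ℝ) (hd : 0 < d)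
    (ξ : ℕ → ℝ) (hξ : ∀ i j : ℕ, i ≠ j → ∀ m : ℤ, ξ i - ξ j ≠ m * d)
    (h : ∀ i, {j : ℤ | Tendsto (mean L (ξ i + j * d)) atTop (𝓝 0)}.Finite)
    (f : ℝ → ℂ) (hf : Integrable f) (hsupp : volume {x | f x ≠ 0} < ⊤) (w : ℂ)
    (ht : ∀ᵐ x : ℝ, Summable (fun l : L => f (x - l)) ∧ ∑' l : L, f (x - l) = w) :
    f =ᵐ[volume] 0 := by
  apply T1 H1 H2 f hf hsupp d hd ξ hξ
  intro i
  have hs : {j : ℤ | ξ i + j * d = 0}.Finite := by
    apply Set.Subsingleton.finite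
    intro a ha b hb
    simp only [Set.mem_ofPred_eq] at ha hb
    have : (a : ℝ) * d = b * d := by linarith
    have := mul_right_cancel₀ hd.ne' this
    exact_mod_cast this
  apply ((h i).union hs).subset
  intro j hj
  simp only [Set.mem_union, Set.mem_ofPred_eq] at hj ⊢
  by_contra hcon
  push Not at hcon
  exact hj (HL L hL _ hcon.2 hcon.1 f hf w ht)

/-- the Blaschke factor on the circle -/
noncomputable def bl (r x : ℝ) : ℂ :=
  (Complex.exp ((2 * Real.pi * x : ℝ) * I) - r) / (1 - r * Complex.exp ((2 * Real.pi * x : ℝ) * I))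

lemma mean_neg (L : Set ℝ) (s : ℝ) (T : ℕ) (hfin : (L ∩ Set.Ico (0 : ℝ) T).Finite) :
    mean L (-s) T = (starRingEnd ℂ) (mean L s T) := by
  unfold mean
  rw [finsum_mem_eq_finite_toFinset_sum _ hfin, finsum_mem_eq_finite_toFinset_sum _ hfin]
  rw [map_mul, map_sum]
  congr 1
  · simp
  · apply Finset.sum_congr rfl
    intro l _
    rw [← Complex.exp_conj]
    congr 1
    simp only [map_mul, conj_I, map_neg, Complex.conj_ofReal]
    push_cast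
    ring

lemma BD.fin {L : Set ℝ} (hL : BD L) (T : ℕ) : (L ∩ Set.Ico (0 : ℝ) T).Finite := by
  obtain ⟨C, hC⟩ := hL
  induction T with
  | zero => simp
  | succ n ih =>
    have : L ∩ Set.Ico (0 : ℝ) ((n + 1 : ℕ) : ℝ) ⊆ (L ∩ Set.Ico (0 : ℝ) n) ∪ (L ∩ Set.Ico (n : ℝ) (n + 1)) := by
      rintro x ⟨hx, h1, h2⟩
      push_cast at h2
      rcases lt_or_ge x n with h3 | h3
      · exact Or.inl ⟨hx, h1, h3⟩
      · exact Or.inr ⟨hx, h3, h2⟩
    exact (ih.union (hC n).1).subset this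

/-- Kurasov-Sarnak sets -/
def ks (α r : ℝ) : Set ℝ :=
  {x | Real.sin (Real.pi * ((1 + α) * x)) = r * Real.sin (Real.pi * ((α - 1) * x))}

def P3b : Prop := ∀ (r : ℝ) (_ : |r| < 1) (_ : Transcendental ℤ r) (m k : ℕ) (_ : 1 ≤ m),
    (∫ x in (0 : ℝ)..1, Complex.exp (-(2 * Real.pi * k * x : ℝ) * I) *
      ((Complex.exp ((2 * Real.pi * x : ℝ) * I) - r) / (1 - r * Complex.exp ((2 * Real.pi * x : ℝ) * I))) ^ m) ≠ 0

def P3c : Prop := ∀ (α r : ℝ) (_ : 0 < α) (_ : |r| < 1),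
    ∃ Φ : ℝ → ℝ, Φ 0 = 0 ∧ StrictMono Φ ∧ Function.Surjective Φ ∧
      (∀ x, HasDerivAt Φ (α + (1 - r ^ 2) / (1 - 2 * r * Real.cos (2 * Real.pi * x) + r ^ 2)) x) ∧
      (∀ x, Φ (x + 1) = Φ x + (1 + α)) ∧
      (∀ x, Complex.exp ((2 * Real.pi * Φ x : ℝ) * I) = Complex.exp ((2 * Real.pi * (α * x) : ℝ) * I) *
        ((Complex.exp ((2 * Real.pi * x : ℝ) * I) - r) / (1 - r * Complex.exp ((2 * Real.pi * x : ℝ) * I)))) ∧
      (∀ x, (∃ n : ℤ, Φ x = n) ↔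
        Real.sin (Real.pi * ((1 + α) * x)) = r * Real.sin (Real.pi * ((α - 1) * x)))

def P3d : Prop := ∀ (r α : ℝ) (_ : |r| < 1) (m k : ℕ) (_ : 1 ≤ m),
    (∫ x in (0 : ℝ)..1, Complex.exp (-(2 * Real.pi * k * x : ℝ) * I) *
      ((Complex.exp ((2 * Real.pi * x : ℝ) * I) - r) / (1 - r * Complex.exp ((2 * Real.pi * x : ℝ) * I))) ^ m
      * ((α + (1 - r ^ 2) / (1 - 2 * r * Real.cos (2 * Real.pi * x) + r ^ 2) : ℝ) : ℂ)) =
    ((α + k / m : ℝ) : ℂ) * ∫ x in (0 : ℝ)..1, Complex.exp (-(2 * Real.pi * k * x : ℝ) * I) *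
      ((Complex.exp ((2 * Real.pi * x : ℝ) * I) - r) / (1 - r * Complex.exp ((2 * Real.pi * x : ℝ) * I))) ^ m

def P3e : Prop := ∀ (α r : ℝ) (_ : 0 < α) (_ : Irrational α) (_ : |r| < 1)
    (Φ : ℝ → ℝ) (_ : Φ 0 = 0) (_ : StrictMono Φ) (_ : Function.Surjective Φ)
    (_ : ∀ x, HasDerivAt Φ (α + (1 - r ^ 2) / (1 - 2 * r * Real.cos (2 * Real.pi * x) + r ^ 2)) x)
    (_ : ∀ x, Φ (x + 1) = Φ x + (1 + α))
    (_ : ∀ x, Complex.exp ((2 * Real.pi * Φ x : ℝ) * I) = Complex.exp ((2 * Real.pi * (α * x) : ℝ) * I) *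
        ((Complex.exp ((2 * Real.pi * x : ℝ) * I) - r) / (1 - r * Complex.exp ((2 * Real.pi * x : ℝ) * I))))
    (L : Set ℝ) (_ : ∀ x, x ∈ L ↔ ∃ n : ℤ, Φ x = n) (m k : ℕ),
    Tendsto (mean L (k + m * α)) atTop
      (𝓝 (∫ x in (0 : ℝ)..1, Complex.exp (-(2 * Real.pi * k * x : ℝ) * I) *
      ((Complex.exp ((2 * Real.pi * x : ℝ) * I) - r) / (1 - r * Complex.exp ((2 * Real.pi * x : ℝ) * I))) ^ m
      * ((α + (1 - r ^ 2) / (1 - 2 * r * Real.cos (2 * Real.pi * x) + r ^ 2) : ℝ) : ℂ)))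

def P5 : Prop := ∀ (α : ℝ) (_ : 0 < α) (Φ : ℝ → ℝ) (_ : StrictMono Φ)
    (_ : ∀ x, Φ (x + 1) = Φ x + (1 + α)) (L : Set ℝ) (_ : ∀ x, x ∈ L ↔ ∃ n : ℤ, Φ x = n), BD L

theorem ks_main (HL : Link) (H1 : PerTrig) (H2 : ExpPoly) (H3b : P3b) (H3c : P3c) (H3d : P3d)
    (H3e : P3e) (H5 : P5) (α r : ℝ) (hα : 0 < α) (hirr : Irrational α) (hr : |r| < 1)
    (hT : Transcendental ℤ r) :
    BD (ks α r) ∧ ∀ (f : ℝ → ℂ), Integrable f → volume {x | f x ≠ 0} < ⊤ → ∀ (w : ℂ),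
      (∀ᵐ x : ℝ, Summable (fun l : ks α r => f (x - l)) ∧ ∑' l : ks α r, f (x - l) = w) →
      f =ᵐ[volume] 0 := by
  obtain ⟨Φ, h0, hmono, hsurj, hder, hper, hexp, hmem⟩ := H3c α r hα hr
  have hL : ∀ x, x ∈ ks α r ↔ ∃ n : ℤ, Φ x = n := by
    intro x
    rw [hmem x]
    rfl
  have hBD : BD (ks α r) := H5 α hα Φ hmono hper _ hL
  refine ⟨hBD, ?_⟩
  intro f hf hsupp w ht
  have hne : ∀ m k : ℕ, 1 ≤ m → ¬ Tendsto (mean (ks α r) (k + m * α)) atTop (𝓝 0) := by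
    intro m k hm hcon
    have h1 := H3e α r hα hirr hr Φ h0 hmono hsurj hder hper hexp _ hL m k
    have h2 := tendsto_nhds_unique hcon h1
    rw [H3d r α hr m k hm] at h2
    rcases mul_eq_zero.mp h2.symm with h3 | h3
    · have h4 : α + (k : ℝ) / m = 0 := by exact_mod_cast h3
      have : 0 ≤ (k : ℝ) / m := by positivity
      linarith
    · exact H3b r hr hT m k hm h3
  have hne' : ∀ m k : ℕ, 1 ≤ m → ¬ Tendsto (mean (ks α r) (-(k + m * α))) atTop (𝓝 0) := by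
    intro m k hm hcon
    apply hne m k hm
    have h1 : Tendsto (fun T => (starRingEnd ℂ) (mean (ks α r) (-(k + m * α)) T)) atTop (𝓝 ((starRingEnd ℂ) 0)) :=
      (Complex.continuous_conj.tendsto 0).comp hcon
    rw [map_zero] at h1
    refine h1.congr ?_
    intro T
    rw [mean_neg _ _ _ (hBD.fin T), Complex.conj_conj]
  refine criterion HL H1 H2 (ks α r) hBD (1 + α) (by linarith) (fun i => (i : ℝ)) ?_ ?_ f hf hsupp w ht
  · intro i j hij m hcon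
    by_cases hm : m = 0
    · subst hm
      apply hij
      have : (i : ℝ) = j := by simp at hcon; linarith
      exact_mod_cast this
    · apply hirr
      refine ⟨((i : ℚ) - j) / m - 1, ?_⟩
      have hm' : (m : ℝ) ≠ 0 := by exact_mod_cast hm
      push_cast
      field_simp
      linarith
  · intro i
    apply (Set.finite_Icc (-(i : ℤ)) 0).subset
    intro j hj
    simp only [Set.mem_ofPred_eq] at hj
    rw [Set.mem_Icc]
    by_contra hcon
    rcases le_or_gt 1 j with h1 | h1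
    · obtain ⟨m, rfl⟩ : ∃ m : ℕ, j = m := ⟨j.toNat, by omega⟩
      apply hne m (i + m) (by omega)
      have : ((i + m : ℕ) : ℝ) + m * α = (i : ℝ) + ((m : ℤ) : ℝ) * (1 + α) := by
        push_cast; ring
      rw [this]
      exact hj
    · have h2 : j < -(i : ℤ) := by
        by_contra h3
        exact hcon ⟨by omega, by omega⟩
      obtain ⟨m, hm⟩ : ∃ m : ℕ, j = -(m : ℤ) := ⟨(-j).toNat, by omega⟩
      subst hm
      have him : i < m := by omega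
      apply hne' m (m - i) (by omega)
      have : -(((m - i : ℕ) : ℝ) + m * α) = (i : ℝ) + ((-(m : ℤ) : ℤ) : ℝ) * (1 + α) := by
        rw [Nat.cast_sub him.le]
        push_cast; ring
      rw [this]
      exact hj

end FMT
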