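import Mathlib
import Pool.Agent.W418.FMT.Defs
open MeasureTheory Filter Topology Complex

namespace FMT

namespace PT

lemma integrable_tsum' {μ : Measure ℝ} (F : ℤ → ℝ → ℂ) (hF : ∀ k, AEStronglyMeasurable (F k) μ)
    (h : ∑' k, ∫⁻ x, ‖F k x‖ₑ ∂μ ≠ ⊤) : Integrable (fun x => ∑' k, F k x) μ := by
  have h1 : ∫⁻ x, ∑' k, ‖F k x‖ₑ ∂μ ≠ ⊤ := by
    rw [lintegral_tsum (fun k => (hF k).enorm)]
    exact h
  have hfin : ∀ᵐ x ∂μ, ∑' k, ‖F k x‖ₑ < ⊤ :=
    ae_lt_top' (AEMeasurable.ennreal_tsum fun k => (hF k).enorm) h1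
  have hsum : ∀ᵐ x ∂μ, Summable (fun k => F k x) := by
    filter_upwards [hfin] with x hx
    apply Summable.of_norm
    have : ∑' k, ((‖F k x‖₊ : NNReal) : ENNReal) ≠ ⊤ := by
      simpa [enorm] using hx.ne
    have := ENNReal.tsum_coe_ne_top_iff_summable.mp this
    exact NNReal.summable_coe.mpr this
  constructor
  · apply aestronglyMeasurable_of_tendsto_ae (u := (atTop : Filter (Finset ℤ)))
      (f := fun s x => ∑ k ∈ s, F k x)
    · intro s
      exact Finset.aestronglyMeasurable_fun_sum s (fun k _ => hF k)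
    · filter_upwards [hsum] with x hx
      exact hx.hasSum
  · unfold HasFiniteIntegral
    refine lt_of_le_of_lt ?_ (lt_top_iff_ne_top.mpr h1)
    apply lintegral_mono_ae
    filter_upwards [hsum, hfin] with x hx hx2
    have hn : Summable (fun k => ‖F k x‖) := by
      have : ∑' k, ((‖F k x‖₊ : NNReal) : ENNReal) ≠ ⊤ := by
        simpa [enorm] using hx2.ne
      have := ENNReal.tsum_coe_ne_top_iff_summable.mp this
      exact NNReal.summable_coe.mpr this
    have h2 : ‖∑' k, F k x‖ ≤ ∑' k, ‖F k x‖ := norm_tsum_le_tsum_norm hn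
    have h3 : ∑' k, ‖F k x‖ₑ = ENNReal.ofReal (∑' k, ‖F k x‖) := by
      rw [ENNReal.ofReal_tsum_of_nonneg (fun k => norm_nonneg _) hn]
      apply tsum_congr
      intro k
      rw [ofReal_norm]
    rw [h3, ← ofReal_norm]
    exact ENNReal.ofReal_le_ofReal h2

lemma pre (τ : ℝ) (k : ℤ) :
    (fun x : ℝ => x + k * τ) ⁻¹' (Set.Ioc (0 + k • τ) (0 + (k + 1) • τ)) = Set.Ioc 0 τ := by
  ext x
  simp only [Set.mem_preimage, Set.mem_Ioc, zsmul_eq_mul, Int.cast_add, Int.cast_one]
  constructor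
  · rintro ⟨h1, h2⟩
    constructor <;> linarith
  · rintro ⟨h1, h2⟩
    constructor <;> linarith

lemma lshift (τ : ℝ) (k : ℤ) (φ : ℝ → ENNReal) :
    ∫⁻ x in Set.Ioc 0 τ, φ (x + k * τ) = ∫⁻ x in Set.Ioc (0 + k • τ) (0 + (k + 1) • τ), φ x := by
  have := (measurePreserving_add_right (volume : Measure ℝ) (k * τ)).setLIntegral_comp_preimage_emb
    (measurableEmbedding_addRight (k * τ)) φ (Set.Ioc (0 + k • τ) (0 + (k + 1) • τ))
  rw [pre] at this
  exact this

lemma bshift (τ : ℝ) (k : ℤ) (φ : ℝ → ℂ) :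
    ∫ x in Set.Ioc 0 τ, φ (x + k * τ) = ∫ x in Set.Ioc (0 + k • τ) (0 + (k + 1) • τ), φ x := by
  have := (measurePreserving_add_right (volume : Measure ℝ) (k * τ)).setIntegral_preimage_emb
    (measurableEmbedding_addRight (k * τ)) φ (Set.Ioc (0 + k • τ) (0 + (k + 1) • τ))
  rw [pre] at this
  exact this

lemma enorm_sum (g : ℝ → ℂ) (hg : Integrable g) (τ : ℝ) (hτ : 0 < τ) :
    ∑' k : ℤ, ∫⁻ x in Set.Ioc 0 τ, ‖g (x + k * τ)‖ₑ ≠ ⊤ := by
  have h1 : ∀ k : ℤ, ∫⁻ x in Set.Ioc 0 τ, ‖g (x + k * τ)‖ₑ =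
      ∫⁻ x in Set.Ioc (0 + k • τ) (0 + (k + 1) • τ), ‖g x‖ₑ := fun k => lshift τ k (fun x => ‖g x‖ₑ)
  simp_rw [h1]
  rw [← lintegral_iUnion (fun k => measurableSet_Ioc) (Set.pairwise_disjoint_Ioc_add_zsmul 0 τ),
    iUnion_Ioc_add_zsmul hτ, Measure.restrict_univ]
  exact hg.2.ne

lemma shift_int (g : ℝ → ℂ) (hg : Integrable g) (a : ℝ) : Integrable (fun x => g (x + a)) :=
  hg.comp_add_right a

/-- exponential -/
noncomputable def ex (s x : ℝ) : ℂ := Complex.exp (-(2 * Real.pi * s * x : ℝ) * I)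

lemma ex_norm (s x : ℝ) : ‖ex s x‖ = 1 := by
  unfold ex
  rw [show (-(2 * Real.pi * s * x : ℝ) * I : ℂ) = ((-(2 * Real.pi * s * x) : ℝ) : ℂ) * I by push_cast; ring]
  exact Complex.norm_exp_ofReal_mul_I _

lemma ex_cont (s : ℝ) : Continuous (ex s) := by unfold ex; fun_prop

lemma ex_per (τ : ℝ) (hτ : 0 < τ) (j k : ℤ) (x : ℝ) : ex (j / τ) (x + k * τ) = ex (j / τ) x := by
  unfold ex
  have hτ' : (τ : ℂ) ≠ 0 := by exact_mod_cast hτ.ne'
  rw [show (-(2 * Real.pi * (j / τ) * (x + k * τ) : ℝ) * I : ℂ) = -(2 * Real.pi * (j / τ) * x : ℝ) * I +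
    ((-(j * k) : ℤ) : ℂ) * (2 * Real.pi * I) by push_cast; field_simp; ring]
  rw [Complex.exp_add, Complex.exp_int_mul_two_pi_mul_I, mul_one]

lemma unfold_int (g : ℝ → ℂ) (hg : Integrable g) (τ : ℝ) (hτ : 0 < τ) (j : ℤ) :
    ∫ x in Set.Ioc 0 τ, (∑' k : ℤ, g (x + k * τ)) * ex (j / τ) x = ft g (j / τ) := by
  have h1 : ∀ x : ℝ, (∑' k : ℤ, g (x + k * τ)) * ex (j / τ) x =
      ∑' k : ℤ, (g (x + k * τ) * ex (j / τ) (x + k * τ)) := by
    intro x
    rw [← tsum_mul_right]
    apply tsum_congr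
    intro k
    rw [ex_per τ hτ]
  simp_rw [h1]
  have hint : Integrable (fun x => g x * ex (j / τ) x) := by
    apply Integrable.mul_bdd (c := 1) hg (ex_cont _).aestronglyMeasurable
    filter_upwards with x
    rw [ex_norm]
  rw [integral_tsum]
  · have h2 : ∀ k : ℤ, ∫ x in Set.Ioc 0 τ, g (x + k * τ) * ex (j / τ) (x + k * τ) =
        ∫ x in Set.Ioc (0 + k • τ) (0 + (k + 1) • τ), g x * ex (j / τ) x :=
      fun k => bshift τ k (fun x => g x * ex (j / τ) x)
    simp_rw [h2]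
    rw [← integral_iUnion (fun k => measurableSet_Ioc) (Set.pairwise_disjoint_Ioc_add_zsmul 0 τ)
      hint.integrableOn, iUnion_Ioc_add_zsmul hτ, Measure.restrict_univ]
    rfl
  · intro k
    exact ((hint.comp_add_right (k * τ)).aestronglyMeasurable).restrict
  · have := enorm_sum (fun x => g x * ex (j / τ) x) hint τ hτ
    exact this

/-- uniqueness of Fourier coefficients -/
lemma uniq (τ : ℝ) (hτ : 0 < τ) (D : ℝ → ℂ) (hD : IntegrableOn D (Set.Ioc 0 τ))
    (h : ∀ j : ℤ, ∫ x in Set.Ioc 0 τ, D x * ex (j / τ) x = 0) :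
    ∀ᵐ x : ℝ, x ∈ Set.Ioo 0 τ → D x = 0 := by
  haveI : Fact (0 < τ) := ⟨hτ⟩
  have hmeas : ∀ u : C(AddCircle τ, ℂ), Continuous (fun x : ℝ => u (x : AddCircle τ)) :=
    fun u => u.continuous.comp (AddCircle.continuous_mk' τ)
  have hI : ∀ u : C(AddCircle τ, ℂ), IntegrableOn (fun x => D x * u (x : AddCircle τ)) (Set.Ioc 0 τ) := by
    intro u
    apply Integrable.mul_bdd (c := ‖u‖) hD (hmeas u).aestronglyMeasurable
    filter_upwards with x
    exact u.norm_coe_le_norm _
  let Λ : C(AddCircle τ, ℂ) →ₗ[ℂ] ℂ :=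
    { toFun := fun u => ∫ x in Set.Ioc 0 τ, D x * u (x : AddCircle τ)
      map_add' := by
        intro u v
        rw [← integral_add (hI u) (hI v)]
        congr 1
        ext x
        simp [mul_add]
      map_smul' := by
        intro c u
        simp only [ContinuousMap.coe_smul, Pi.smul_apply, smul_eq_mul, RingHom.id_apply]
        rw [← integral_const_mul]
        congr 1
        ext x
        ring }
  let Λc := Λ.mkContinuous (∫ x in Set.Ioc 0 τ, ‖D x‖) (by
    intro u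
    calc ‖∫ x in Set.Ioc 0 τ, D x * u (x : AddCircle τ)‖
        ≤ ∫ x in Set.Ioc 0 τ, ‖D x * u (x : AddCircle τ)‖ := norm_integral_le_integral_norm _
      _ ≤ ∫ x in Set.Ioc 0 τ, ‖D x‖ * ‖u‖ := by
        apply integral_mono (hI u).norm (hD.norm.mul_const _)
        intro x
        simp only [norm_mul]
        exact mul_le_mul_of_nonneg_left (u.norm_coe_le_norm _) (norm_nonneg _)
      _ = _ := by rw [integral_mul_const])
  have hker : ∀ u, Λc u = 0 := by
    have h1 : Submodule.span ℂ (Set.range (@fourier τ)) ≤ Λc.ker := by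
      rw [Submodule.span_le]
      rintro _ ⟨n, rfl⟩
      show Λc (fourier n) = 0
      have h2 := h (-n)
      show ∫ x in Set.Ioc 0 τ, D x * (fourier n : C(AddCircle τ, ℂ)) (x : AddCircle τ) = 0
      rw [← h2]
      congr 1
      ext x
      rw [fourier_coe_apply]
      unfold ex
      congr 2
      push_cast
      ring
    have h3 : (⊤ : Submodule ℂ C(AddCircle τ, ℂ)) ≤ Λc.ker := by
      rw [← span_fourier_closure_eq_top]
      exact Submodule.topologicalClosure_minimal _ h1 Λc.isClosed_ker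
    intro u
    exact h3 (Submodule.mem_top)
  apply IsOpen.ae_eq_zero_of_integral_contDiff_smul_eq_zero isOpen_Ioo
    ((hD.mono_set Set.Ioo_subset_Ioc_self).locallyIntegrableOn)
  intro φ hφ _ hsupp
  have hz : ∀ x, x ∉ Set.Ioo 0 τ → φ x = 0 := by
    intro x hx
    by_contra hne
    exact hx (hsupp (subset_tsupport φ hne))
  let v : ℝ → ℂ := fun x => (φ x : ℂ)
  have hv : Continuous v := Complex.continuous_ofReal.comp hφ.continuous
  have hv0 : v 0 = v τ := by
    simp only [v]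
    rw [hz 0 (by simp), hz τ (by simp)]
  have huc : Continuous (AddCircle.liftIoc τ 0 v) := by
    apply AddCircle.liftIoc_continuous
    · rw [zero_add]; exact hv0
    · exact hv.continuousOn
  let u : C(AddCircle τ, ℂ) := ⟨AddCircle.liftIoc τ 0 v, huc⟩
  have hu : ∫ x in Set.Ioc 0 τ, D x * u (x : AddCircle τ) = 0 := hker u
  have h4 : ∫ x in Set.Ioc 0 τ, φ x • D x = 0 := by
    rw [← hu]
    apply setIntegral_congr_fun measurableSet_Ioc
    intro x hx
    show φ x • D x = D x * AddCircle.liftIoc τ 0 v (x : AddCircle τ)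
    rw [AddCircle.liftIoc_zero_coe_apply hx]
    rw [Complex.real_smul]
    exact mul_comm _ _
  rw [← h4]
  symm
  apply setIntegral_eq_integral_of_forall_compl_eq_zero
  intro x hx
  rw [hz x (fun hc => hx (Set.Ioo_subset_Ioc_self hc)), zero_smul]

lemma orth (τ : ℝ) (hτ : 0 < τ) (i j : ℤ) :
    ∫ x in Set.Ioc 0 τ, Complex.exp ((2 * Real.pi * (i / τ) * x : ℝ) * I) * ex (j / τ) x =
      if i = j then (τ : ℂ) else 0 := by
  have hτ' : (τ : ℂ) ≠ 0 := by exact_mod_cast hτ.ne'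
  have h1 : ∀ x : ℝ, Complex.exp ((2 * Real.pi * (i / τ) * x : ℝ) * I) * ex (j / τ) x =
      Complex.exp ((2 * Real.pi * I * ((i : ℂ) - j) / τ) * x) := by
    intro x
    unfold ex
    rw [← Complex.exp_add]
    congr 1
    push_cast
    field_simp
    ring
  simp_rw [h1]
  rw [← intervalIntegral.integral_of_le hτ.le]
  split_ifs with hij
  · subst hij
    simp
  · have hne : (2 * Real.pi * I * ((i : ℂ) - j) / τ) ≠ 0 := by
      have hij' : (i : ℂ) - j ≠ 0 := by
        rw [sub_ne_zero]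
        exact_mod_cast hij
      have := Real.pi_ne_zero
      have hpi : (Real.pi : ℂ) ≠ 0 := by exact_mod_cast this
      simp [hij', hpi, hτ', I_ne_zero]
    rw [integral_exp_mul_complex hne]
    rw [show (2 * Real.pi * I * ((i : ℂ) - j) / τ) * τ = ((i - j : ℤ) : ℂ) * (2 * Real.pi * I) by
      push_cast; field_simp]
    rw [Complex.exp_int_mul_two_pi_mul_I]
    simp

end PT

open PT in
theorem per_trig (g : ℝ → ℂ) (hg : Integrable g) (τ : ℝ) (hτ : 0 < τ) (F : Finset ℤ)
    (h : ∀ j : ℤ, j ∉ F → ft g (j / τ) = 0) :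
    ∀ᵐ x : ℝ, ∑' k : ℤ, g (x + k * τ) =
      ∑ j ∈ F, (1 / (τ : ℂ)) * ft g (j / τ) * Complex.exp ((2 * Real.pi * (j / τ) * x : ℝ) * I) := by
  have hτ' : (τ : ℂ) ≠ 0 := by exact_mod_cast hτ.ne'
  let G : ℝ → ℂ := fun x => ∑' k : ℤ, g (x + k * τ)
  let P : ℝ → ℂ := fun x => ∑ j ∈ F, (1 / (τ : ℂ)) * ft g (j / τ) * Complex.exp ((2 * Real.pi * (j / τ) * x : ℝ) * I)
  have hG : IntegrableOn G (Set.Ioc 0 τ) := by
    apply integrable_tsum'
    · intro k
      exact ((hg.comp_add_right (k * τ)).aestronglyMeasurable).restrict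
    · exact enorm_sum g hg τ hτ
  have hPc : Continuous P := by
    apply continuous_finsetSum
    intro j _
    fun_prop
  have hP : IntegrableOn P (Set.Ioc 0 τ) := (hPc.integrableOn_Icc (a := 0) (b := τ)).mono_set Set.Ioc_subset_Icc_self
  have hbd : ∀ (u : ℝ → ℂ) (_ : IntegrableOn u (Set.Ioc 0 τ)) (s : ℝ), IntegrableOn (fun x => u x * ex s x) (Set.Ioc 0 τ) := by
    intro u hu s
    apply Integrable.mul_bdd (c := 1) hu (ex_cont _).aestronglyMeasurable
    filter_upwards with x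
    rw [ex_norm]
  have hD := uniq τ hτ (fun x => G x - P x) (hG.sub hP) (by
    intro j
    simp_rw [sub_mul]
    rw [integral_sub (hbd G hG _) (hbd P hP _)]
    rw [unfold_int g hg τ hτ j]
    have h2 : ∫ x in Set.Ioc 0 τ, P x * ex (j / τ) x = ft g (j / τ) := by
      simp only [P, Finset.sum_mul]
      rw [integral_finsetSum]
      · have h3 : ∀ i ∈ F, ∫ x in Set.Ioc 0 τ, (1 / (τ : ℂ)) * ft g (i / τ) * Complex.exp ((2 * Real.pi * (i / τ) * x : ℝ) * I) * ex (j / τ) x =
            (1 / (τ : ℂ)) * ft g (i / τ) * (if i = j then (τ : ℂ) else 0) := by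
          intro i _
          rw [← orth τ hτ i j, ← integral_const_mul]
          congr 1
          ext x
          ring
        rw [Finset.sum_congr rfl h3]
        simp only [mul_ite, mul_zero, Finset.sum_ite_eq']
        split_ifs with hj
        · field_simp
        · rw [h j hj]
      · intro i _
        apply hbd
        apply (Continuous.integrableOn_Icc _).mono_set Set.Ioc_subset_Icc_self
        fun_prop
    rw [h2, sub_self])
  -- extend by periodicity
  have hGp : ∀ (x : ℝ) (n : ℤ), G (x + n * τ) = G x := by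
    intro x n
    simp only [G]
    rw [← (Equiv.addRight n).tsum_eq (fun k : ℤ => g (x + k * τ))]
    apply tsum_congr
    intro k
    congr 1
    simp only [Equiv.coe_addRight]
    push_cast
    ring
  have hPp : ∀ (x : ℝ) (n : ℤ), P (x + n * τ) = P x := by
    intro x n
    simp only [P]
    apply Finset.sum_congr rfl
    intro j _
    congr 1
    rw [show ((2 * Real.pi * (j / τ) * (x + n * τ) : ℝ) * I : ℂ) = (2 * Real.pi * (j / τ) * x : ℝ) * I +
      ((j * n : ℤ) : ℂ) * (2 * Real.pi * I) by push_cast; field_simp]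
    rw [Complex.exp_add, Complex.exp_int_mul_two_pi_mul_I, mul_one]
  have hk : ∀ n : ℤ, ∀ᵐ x : ℝ, x - n * τ ∈ Set.Ioo 0 τ → G x = P x := by
    intro n
    have hq : Tendsto (fun x : ℝ => x - n * τ) (ae volume) (ae volume) :=
      (measurePreserving_sub_right (volume : Measure ℝ) (n * τ)).quasiMeasurePreserving.tendsto_ae
    filter_upwards [hq.eventually hD] with x hx hxI
    have h1 := hx hxI
    have h2 : G (x - n * τ) = P (x - n * τ) := sub_eq_zero.mp h1
    have h3 := hGp (x - n * τ) n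
    have h4 := hPp (x - n * τ) n
    rw [sub_add_cancel] at h3 h4
    rw [h3, h4, h2]
  have hcount : ∀ᵐ x : ℝ, x ∉ Set.range (fun n : ℤ => (n : ℝ) * τ) := by
    rw [← measure_eq_zero_iff_ae_notMem]
    exact (Set.countable_range _).measure_zero _
  filter_upwards [ae_all_iff.mpr hk, hcount] with x hx hxc
  apply hx ⌊x / τ⌋
  have e1 := Int.floor_le (x / τ)
  rw [le_div_iff₀ hτ] at e1
  have e2 := Int.lt_floor_add_one (x / τ)
  rw [div_lt_iff₀ hτ] at e2
  constructor
  · have : (⌊x / τ⌋ : ℝ) * τ ≠ x := fun hc => hxc ⟨_, hc⟩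
    have := lt_of_le_of_ne e1 this
    linarith
  · linarith

end FMT
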