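import Mathlib
import Pool.Agent.W418.FMT.Defs

/-! Independence of exponentials on a set of positive measure (written by helper797). -/

open MeasureTheory Filter Topology Complex

namespace FMT

/-- the character of frequency `w` -/
noncomputable def chr797 (w : ℝ) : Multiplicative ℝ →* ℂ where
  toFun x := Complex.exp ((2 * Real.pi * w * (Multiplicative.toAdd x) : ℝ) * I)
  map_one' := by simp
  map_mul' x y := by
    rw [← Complex.exp_add, toAdd_mul]
    congr 1
    push_cast
    ring

theorem chr797_inj : Function.Injective chr797 := by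
  intro v w h
  by_contra hne
  have h1 : v - w ≠ 0 := sub_ne_zero.2 hne
  have h2 := congrArg
    (fun f : Multiplicative ℝ →* ℂ => f (Multiplicative.ofAdd (1 / (2 * (v - w))))) h
  have h3 : Complex.exp ((2 * Real.pi * v * (1 / (2 * (v - w))) : ℝ) * I) =
      Complex.exp ((2 * Real.pi * w * (1 / (2 * (v - w))) : ℝ) * I) := h2
  rw [Complex.exp_eq_exp_iff_exists_int] at h3
  obtain ⟨n, hn⟩ := h3
  have h4 : (((2 * Real.pi * v * (1 / (2 * (v - w))) : ℝ) : ℂ)) * I =
      (((2 * Real.pi * w * (1 / (2 * (v - w))) + n * (2 * Real.pi) : ℝ) : ℂ)) * I := by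
    rw [hn]
    push_cast
    ring
  have h5 := mul_right_cancel₀ Complex.I_ne_zero h4
  have h6 : 2 * Real.pi * v * (1 / (2 * (v - w))) =
      2 * Real.pi * w * (1 / (2 * (v - w))) + n * (2 * Real.pi) := Complex.ofReal_injective h5
  have h7 : Real.pi * (1 - 2 * (n : ℝ)) = 0 := by
    have h8 : 2 * Real.pi * v * (1 / (2 * (v - w))) - 2 * Real.pi * w * (1 / (2 * (v - w))) =
        Real.pi := by
      field_simp
    linear_combination h6 - h8
  rcases mul_eq_zero.1 h7 with h8 | h8
  · exact Real.pi_ne_zero h8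
  · have h9 : (1 : ℤ) - 2 * n = 0 := by exact_mod_cast h8
    omega

theorem exp_poly {ι : Type} [Fintype ι] (ω : ι → ℝ) (hω : Function.Injective ω) (a : ι → ℂ)
    (X : Set ℝ) (hX : volume X ≠ 0)
    (h : ∀ x ∈ X, ∑ i, a i * Complex.exp ((2 * Real.pi * ω i * x : ℝ) * I) = 0) : ∀ i, a i = 0 := by
  obtain ⟨G, hG⟩ : ∃ G : ℂ → ℂ, G = fun z => ∑ i, a i * Complex.exp (2 * Real.pi * ω i * z * I) :=
    ⟨_, rfl⟩
  have hGd : Differentiable ℂ G := by
    rw [hG]
    fun_prop
  have hGr : ∀ x : ℝ, G x = ∑ i, a i * Complex.exp ((2 * Real.pi * ω i * x : ℝ) * I) := by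
    intro x
    rw [hG]
    push_cast
    rfl
  -- an infinite bounded piece
  obtain ⟨n, hn⟩ : ∃ n : ℕ, (X ∩ Set.Icc (-(n : ℝ)) n).Infinite := by
    by_contra hcon
    push Not at hcon
    apply hX
    have hc : X.Countable := by
      have hU : X ⊆ ⋃ n : ℕ, (X ∩ Set.Icc (-(n : ℝ)) n) := by
        intro x hx
        obtain ⟨n, hn⟩ := exists_nat_ge |x|
        rw [Set.mem_iUnion]
        exact ⟨n, hx, abs_le.1 hn⟩
      refine Set.Countable.mono hU (Set.countable_iUnion fun n => ?_)
      exact (hcon n).countable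
    exact hc.measure_zero volume
  have hinf : ((fun x : ℝ => (x : ℂ)) '' (X ∩ Set.Icc (-(n : ℝ)) n)).Infinite :=
    hn.image Complex.ofReal_injective.injOn
  obtain ⟨z₀, _, hacc⟩ := hinf.exists_accPt_of_subset_isCompact
    (isCompact_Icc.image Complex.continuous_ofReal) (Set.image_mono Set.inter_subset_right)
  rw [accPt_iff_frequently_nhdsNE] at hacc
  have hfreq : ∃ᶠ z in 𝓝[≠] z₀, G z = (fun _ => (0 : ℂ)) z := by
    refine hacc.mono ?_
    rintro z ⟨x, hx, rfl⟩
    show G (x : ℂ) = 0
    rw [hGr]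
    exact h x hx.1
  have hG0 : G = fun _ => (0 : ℂ) :=
    AnalyticOnNhd.eq_of_frequently_eq (fun z _ => hGd.analyticAt z) (fun z _ => analyticAt_const)
      hfreq
  -- independence of the characters
  have hlin : LinearIndependent ℂ (fun i : ι => (chr797 (ω i) : Multiplicative ℝ → ℂ)) :=
    (linearIndependent_monoidHom (Multiplicative ℝ) ℂ).comp (fun i : ι => chr797 (ω i))
      (chr797_inj.comp hω)
  rw [Fintype.linearIndependent_iff] at hlin
  apply hlin a
  funext y
  rw [Finset.sum_apply, Pi.zero_apply]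
  have h1 := hGr (Multiplicative.toAdd y)
  rw [hG0] at h1
  exact h1.symm

end FMT

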