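import Mathlib
import Pool.Agent.W418.FMT.Defs

open MeasureTheory Filter Topology Complex

namespace FMT

theorem cf_int_exp (n : ℤ) :
    (∫ x in (0:ℝ)..1, Complex.exp ((2 * Real.pi * n * I) * (x : ℂ))) = if n = 0 then 1 else 0 := by
  by_cases hn : n = 0
  · simp [hn]
  · have hc : (2 * Real.pi * n * I : ℂ) ≠ 0 := by
      have : (n : ℂ) ≠ 0 := by exact_mod_cast hn
      simp [this, Real.pi_ne_zero]
    rw [integral_exp_mul_complex hc, if_neg hn]
    have h1 : Complex.exp (2 * Real.pi * n * I * ((1 : ℝ) : ℂ)) = 1 := by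
      rw [Complex.exp_eq_one_iff]
      exact ⟨n, by push_cast; ring⟩
    rw [h1]
    simp

noncomputable def cfz (x : ℝ) : ℂ := Complex.exp ((2 * Real.pi * x : ℝ) * I)

theorem cfz_norm (x : ℝ) : ‖cfz x‖ = 1 := by
  unfold cfz
  rw [Complex.norm_exp_ofReal_mul_I]

theorem cfz_cont : Continuous cfz := by
  unfold cfz
  fun_prop

noncomputable def cfe (k : ℕ) (x : ℝ) : ℂ := Complex.exp (-(2 * Real.pi * k * x : ℝ) * I)

theorem cfe_cont (k : ℕ) : Continuous (cfe k) := by
  unfold cfe
  fun_prop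

theorem cfe_norm (k : ℕ) (x : ℝ) : ‖cfe k x‖ = 1 := by
  unfold cfe
  rw [← Complex.ofReal_neg, Complex.norm_exp_ofReal_mul_I]

theorem cf_mono (k j : ℕ) (x : ℝ) :
    cfe k x * cfz x ^ j = Complex.exp ((2 * Real.pi * ((j : ℤ) - (k : ℤ) : ℤ) * I) * (x : ℂ)) := by
  unfold cfe cfz
  rw [← Complex.exp_nat_mul, ← Complex.exp_add]
  congr 1
  push_cast
  ring

theorem cf_int_mono (k j : ℕ) :
    (∫ x in (0:ℝ)..1, cfe k x * cfz x ^ j) = if j = k then 1 else 0 := by
  simp_rw [cf_mono]
  rw [cf_int_exp]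
  by_cases h : j = k
  · simp [h]
  · have : ((j : ℤ) - (k : ℤ)) ≠ 0 := by omega
    rw [if_neg this, if_neg h]

theorem cf_int_term (r : ℝ) (m k l : ℕ) :
    (∫ x in (0:ℝ)..1, cfe k x * (cfz x - r) ^ m * (cfz x) ^ l) =
      ∑ i ∈ Finset.range (m + 1), if i + l = k then (m.choose i : ℂ) * (-(r : ℂ)) ^ (m - i) else 0 := by
  have h : ∀ x : ℝ, cfe k x * (cfz x - r) ^ m * (cfz x) ^ l =
      ∑ i ∈ Finset.range (m + 1), ((m.choose i : ℂ) * (-(r : ℂ)) ^ (m - i)) * (cfe k x * cfz x ^ (i + l)) := by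
    intro x
    rw [sub_eq_add_neg, add_pow, Finset.mul_sum, Finset.sum_mul]
    refine Finset.sum_congr rfl fun i _ => ?_
    rw [pow_add]
    ring
  simp_rw [h]
  rw [intervalIntegral.integral_finsetSum]
  · refine Finset.sum_congr rfl fun i _ => ?_
    rw [intervalIntegral.integral_const_mul, cf_int_mono]
    split_ifs <;> simp
  · intro i _
    have := cfe_cont k
    have := cfz_cont
    exact (by fun_prop : Continuous fun x => ((m.choose i : ℂ) * (-(r : ℂ)) ^ (m - i)) * (cfe k x * cfz x ^ (i + l))).intervalIntegrable 0 1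

open Polynomial in
noncomputable def cfP (m k : ℕ) : ℤ[X] :=
  ∑ l ∈ Finset.range (k + 1), ∑ i ∈ Finset.range (m + 1),
    if i + l = k then Polynomial.C (((l + (m - 1)).choose (m - 1) : ℤ) * ((m.choose i : ℤ) * (-1) ^ (m - i))) *
      Polynomial.X ^ (l + (m - i)) else 0

theorem cfP_coeff (m k : ℕ) : (cfP m k).coeff (m + k) =
    ((k + (m - 1)).choose (m - 1) : ℤ) * (-1) ^ m := by
  unfold cfP
  rw [Polynomial.finsetSum_coeff, Finset.sum_eq_single k]
  · rw [Polynomial.finsetSum_coeff, Finset.sum_eq_single 0]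
    · rw [if_pos (by omega), Polynomial.coeff_C_mul_X_pow, if_pos (by omega)]
      simp
    · intro i _ hi
      rw [if_neg (by omega)]
      simp
    · simp
  · intro l hl hlk
    rw [Polynomial.finsetSum_coeff]
    apply Finset.sum_eq_zero
    intro i hi
    rw [Finset.mem_range] at hl hi
    split_ifs with h
    · rw [Polynomial.coeff_C_mul_X_pow, if_neg (by omega)]
    · simp
  · intro h
    exact absurd (Finset.mem_range.mpr (by omega)) h

theorem coeff_ne (r : ℝ) (hr : |r| < 1) (hT : Transcendental ℤ r) (m k : ℕ) (hm : 1 ≤ m) :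
    (∫ x in (0 : ℝ)..1, Complex.exp (-(2 * Real.pi * k * x : ℝ) * I) *
      ((Complex.exp ((2 * Real.pi * x : ℝ) * I) - r) / (1 - r * Complex.exp ((2 * Real.pi * x : ℝ) * I))) ^ m) ≠ 0 := by
  have hec := cfe_cont k
  have hzc := cfz_cont
  let c : ℕ → ℂ := fun l => ((l + (m - 1)).choose (m - 1) : ℂ) * (r : ℂ) ^ l
  let g : ℕ → ℝ → ℂ := fun l x => c l * (cfe k x * (cfz x - r) ^ m * (cfz x) ^ l)
  have hm1 : m - 1 + 1 = m := by omega
  have hrn : ‖(r : ℂ)‖ < 1 := by rw [Complex.norm_real, Real.norm_eq_abs]; exact hr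
  have hsum : ∀ x : ℝ, HasSum (fun l => g l x)
      (cfe k x * ((cfz x - r) / (1 - r * cfz x)) ^ m) := by
    intro x
    have hq : ‖(r : ℂ) * cfz x‖ < 1 := by rw [norm_mul, cfz_norm, mul_one]; exact hrn
    have h1 := hasSum_choose_mul_geometric_of_norm_lt_one (m - 1) hq
    rw [hm1] at h1
    have h2 := h1.mul_left (cfe k x * (cfz x - r) ^ m)
    have e2 : cfe k x * (cfz x - r) ^ m * (1 / (1 - r * cfz x) ^ m) =
        cfe k x * ((cfz x - r) / (1 - r * cfz x)) ^ m := by
      rw [div_pow]; ring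
    rw [e2] at h2
    have e3 : (fun l => g l x) = fun l => cfe k x * (cfz x - r) ^ m *
        (((l + (m - 1)).choose (m - 1) : ℂ) * ((r : ℂ) * cfz x) ^ l) := by
      ext l
      simp only [g, c]
      rw [mul_pow]
      ring
    rw [e3]
    exact h2
  have hcs : Summable fun l => ‖c l‖ := by
    have h1 : Summable fun l : ℕ => ((l + (m - 1)).choose (m - 1) : ℝ) * |r| ^ l := by
      apply summable_choose_mul_geometric_of_norm_lt_one (m - 1)
      rw [Real.norm_eq_abs, abs_abs]
      exact hr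
    refine h1.congr ?_
    intro l
    simp only [c]
    rw [norm_mul, norm_pow, Complex.norm_real, Real.norm_eq_abs, Complex.norm_natCast]
  have hbd : ∀ l x, ‖g l x‖ ≤ ‖c l‖ * 2 ^ m := by
    intro l x
    show ‖c l * (cfe k x * (cfz x - r) ^ m * (cfz x) ^ l)‖ ≤ ‖c l‖ * 2 ^ m
    generalize c l = cl
    rw [norm_mul, norm_mul, norm_mul, cfe_norm, norm_pow, norm_pow, cfz_norm, one_pow, mul_one,
      one_mul]
    apply mul_le_mul_of_nonneg_left _ (norm_nonneg _)
    apply pow_le_pow_left₀ (norm_nonneg _)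
    calc ‖cfz x - r‖ ≤ ‖cfz x‖ + ‖(r : ℂ)‖ := norm_sub_le _ _
      _ ≤ 2 := by rw [cfz_norm]; linarith
  have hint : HasSum (fun l => ∫ x in (0:ℝ)..1, g l x)
      (∫ x in (0:ℝ)..1, cfe k x * ((cfz x - r) / (1 - r * cfz x)) ^ m) := by
    apply intervalIntegral.hasSum_integral_of_dominated_convergence (fun l _ => ‖c l‖ * 2 ^ m)
    · intro l
      exact (by simp only [g]; fun_prop : Continuous (g l)).aestronglyMeasurable
    · intro l
      exact Filter.Eventually.of_forall fun x _ => hbd l x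
    · exact Filter.Eventually.of_forall fun x _ => hcs.mul_right _
    · exact intervalIntegrable_const
    · exact Filter.Eventually.of_forall fun x _ => hsum x
  have hv : ∀ l, (∫ x in (0:ℝ)..1, g l x) = c l * ∑ i ∈ Finset.range (m + 1),
      if i + l = k then (m.choose i : ℂ) * (-(r : ℂ)) ^ (m - i) else 0 := by
    intro l
    simp only [g]
    rw [intervalIntegral.integral_const_mul, cf_int_term]
  have hval : (∫ x in (0:ℝ)..1, cfe k x * ((cfz x - r) / (1 - r * cfz x)) ^ m) =
      ((Polynomial.aeval r (cfP m k) : ℝ) : ℂ) := by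
    rw [← hint.tsum_eq, tsum_eq_sum (s := Finset.range (k + 1))]
    · unfold cfP
      rw [map_sum, Complex.ofReal_sum]
      refine Finset.sum_congr rfl fun l _ => ?_
      rw [hv l, map_sum, Complex.ofReal_sum, Finset.mul_sum]
      refine Finset.sum_congr rfl fun i _ => ?_
      split_ifs with h
      · simp only [c, map_mul, map_pow, map_intCast, map_natCast, map_neg, map_one,
          Polynomial.aeval_X, Polynomial.aeval_C]
        rw [pow_add, neg_pow (r : ℂ)]
        push_cast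
        ring
      · simp
    · intro l hl
      rw [hv l]
      rw [Finset.mem_range] at hl
      rw [Finset.sum_eq_zero, mul_zero]
      intro i _
      rw [if_neg (by omega)]
  change (∫ x in (0:ℝ)..1, cfe k x * ((cfz x - r) / (1 - r * cfz x)) ^ m) ≠ 0
  rw [hval]
  intro h0
  have h1 : Polynomial.aeval r (cfP m k) = 0 := by exact_mod_cast h0
  have h2 := (transcendental_iff.mp hT) _ h1
  have h3 := cfP_coeff m k
  rw [h2, Polynomial.coeff_zero] at h3
  have h4 : ((k + (m - 1)).choose (m - 1) : ℤ) ≠ 0 := by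
    have := Nat.choose_pos (n := k + (m - 1)) (k := m - 1) (by omega)
    exact_mod_cast this.ne'
  have h5 : ((-1 : ℤ)) ^ m ≠ 0 := pow_ne_zero _ (by norm_num)
  exact (mul_ne_zero h4 h5) h3.symm

end FMT

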