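import Mathlib
import Pool.Agent.W418.FMT.Defs

open MeasureTheory Filter Topology Complex

namespace FMT

theorem ibp_den_ne (r : ℝ) (hr : |r| < 1) (x : ℝ) :
    (1 - r * Complex.exp ((2 * Real.pi * x : ℝ) * I) : ℂ) ≠ 0 := by
  intro h
  have h1 : (r : ℂ) * Complex.exp ((2 * Real.pi * x : ℝ) * I) = 1 := (sub_eq_zero.mp h).symm
  have h2 := congrArg norm h1
  rw [norm_mul, Complex.norm_exp_ofReal_mul_I, mul_one, norm_one, Complex.norm_real,
    Real.norm_eq_abs] at h2
  linarith

theorem ibp_exp_deriv (x : ℝ) :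
    HasDerivAt (fun x : ℝ => Complex.exp ((2 * Real.pi * x : ℝ) * I))
      (Complex.exp ((2 * Real.pi * x : ℝ) * I) * (2 * Real.pi * I)) x := by
  have h1 : HasDerivAt (fun x : ℝ => ((2 * Real.pi * x : ℝ) : ℂ) * I) (2 * Real.pi * I) x := by
    have h2 : HasDerivAt (fun x : ℝ => (2 * Real.pi * x : ℝ)) (2 * Real.pi) x := by
      simpa using (hasDerivAt_id x).const_mul (2 * Real.pi)
    have h3 := (h2.ofReal_comp).mul_const I
    simpa using h3
  exact h1.cexp

theorem ibp_pois (r : ℝ) (hr : |r| < 1) (x : ℝ) :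
    (((1 - r ^ 2) / (1 - 2 * r * Real.cos (2 * Real.pi * x) + r ^ 2) : ℝ) : ℂ) =
      (1 - r ^ 2) * Complex.exp ((2 * Real.pi * x : ℝ) * I) /
      ((1 - r * Complex.exp ((2 * Real.pi * x : ℝ) * I)) *
        (Complex.exp ((2 * Real.pi * x : ℝ) * I) - r)) := by
  have hd := ibp_den_ne r hr x
  have hz0 : Complex.exp ((2 * Real.pi * x : ℝ) * I) ≠ 0 := Complex.exp_ne_zero _
  have hd2 : (Complex.exp ((2 * Real.pi * x : ℝ) * I) - r : ℂ) ≠ 0 := by
    intro h
    have h1 : Complex.exp ((2 * Real.pi * x : ℝ) * I) = r := sub_eq_zero.mp h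
    have h2 := congrArg norm h1
    rw [Complex.norm_exp_ofReal_mul_I, Complex.norm_real, Real.norm_eq_abs] at h2
    linarith
  have hcos : (2 : ℂ) * Real.cos (2 * Real.pi * x) * Complex.exp ((2 * Real.pi * x : ℝ) * I) =
      Complex.exp ((2 * Real.pi * x : ℝ) * I) ^ 2 + 1 := by
    rw [Complex.ofReal_cos, Complex.cos]
    have : Complex.exp (-((2 * Real.pi * x : ℝ) : ℂ) * I) * Complex.exp (((2 * Real.pi * x : ℝ) : ℂ) * I) = 1 := by
      rw [← Complex.exp_add]; simp
    linear_combination this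
  have key : (1 - 2 * r * Real.cos (2 * Real.pi * x) + r ^ 2 : ℂ) * Complex.exp ((2 * Real.pi * x : ℝ) * I)
      = (1 - r * Complex.exp ((2 * Real.pi * x : ℝ) * I)) *
        (Complex.exp ((2 * Real.pi * x : ℝ) * I) - r) := by
    linear_combination (-(r : ℂ)) * hcos
  have hne : (1 - 2 * r * Real.cos (2 * Real.pi * x) + r ^ 2 : ℂ) ≠ 0 := by
    intro h
    rw [h, zero_mul] at key
    exact (mul_ne_zero hd hd2) key.symm
  rw [← key]
  push_cast
  field_simp

theorem ibp (r α : ℝ) (hr : |r| < 1) (m k : ℕ) (hm : 1 ≤ m) :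
    (∫ x in (0 : ℝ)..1, Complex.exp (-(2 * Real.pi * k * x : ℝ) * I) *
      ((Complex.exp ((2 * Real.pi * x : ℝ) * I) - r) / (1 - r * Complex.exp ((2 * Real.pi * x : ℝ) * I))) ^ m
      * ((α + (1 - r ^ 2) / (1 - 2 * r * Real.cos (2 * Real.pi * x) + r ^ 2) : ℝ) : ℂ)) =
    ((α + k / m : ℝ) : ℂ) * ∫ x in (0 : ℝ)..1, Complex.exp (-(2 * Real.pi * k * x : ℝ) * I) *
      ((Complex.exp ((2 * Real.pi * x : ℝ) * I) - r) / (1 - r * Complex.exp ((2 * Real.pi * x : ℝ) * I))) ^ m := by
  set b : ℝ → ℂ := fun x => (Complex.exp ((2 * Real.pi * x : ℝ) * I) - r) /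
    (1 - r * Complex.exp ((2 * Real.pi * x : ℝ) * I)) with hb
  set e : ℝ → ℂ := fun x => Complex.exp (-(2 * Real.pi * k * x : ℝ) * I) with he
  set P : ℝ → ℂ := fun x =>
    (((1 - r ^ 2) / (1 - 2 * r * Real.cos (2 * Real.pi * x) + r ^ 2) : ℝ) : ℂ) with hP
  have hbd : ∀ x, HasDerivAt b (2 * Real.pi * I * P x * b x) x := by
    intro x
    have hd := ibp_den_ne r hr x
    have h1 := (ibp_exp_deriv x).sub_const (r : ℂ)
    have h2 := ((ibp_exp_deriv x).const_mul (r : ℂ)).const_sub 1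
    have h3 := h1.div h2 hd
    refine h3.congr_deriv ?_
    have hd2 : (Complex.exp ((2 * Real.pi * x : ℝ) * I) - r : ℂ) ≠ 0 := by
      intro h
      have h1 : Complex.exp ((2 * Real.pi * x : ℝ) * I) = r := sub_eq_zero.mp h
      have h2 := congrArg norm h1
      rw [Complex.norm_exp_ofReal_mul_I, Complex.norm_real, Real.norm_eq_abs] at h2
      linarith
    simp only [hP, hb]
    rw [ibp_pois r hr x]
    field_simp
    ring
  have hed : ∀ x, HasDerivAt e (-(2 * Real.pi * I * k) * e x) x := by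
    intro x
    have h2 : HasDerivAt (fun x : ℝ => (2 * Real.pi * k * x : ℝ)) (2 * Real.pi * k) x := by
      simpa using (hasDerivAt_id x).const_mul (2 * Real.pi * k)
    have h3 := ((h2.ofReal_comp).neg.mul_const I).cexp
    refine h3.congr_deriv ?_
    simp only [he, Pi.neg_apply]
    push_cast
    ring
  have hbc : Continuous b := continuous_iff_continuousAt.mpr fun x => (hbd x).continuousAt
  have hec : Continuous e := continuous_iff_continuousAt.mpr fun x => (hed x).continuousAt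
  have hPc : Continuous P := by
    have : ∀ x : ℝ, P x = (1 - r ^ 2) * Complex.exp ((2 * Real.pi * x : ℝ) * I) /
      ((1 - r * Complex.exp ((2 * Real.pi * x : ℝ) * I)) *
        (Complex.exp ((2 * Real.pi * x : ℝ) * I) - r)) := fun x => ibp_pois r hr x
    rw [show P = fun x : ℝ => (1 - r ^ 2) * Complex.exp ((2 * Real.pi * x : ℝ) * I) /
      ((1 - r * Complex.exp ((2 * Real.pi * x : ℝ) * I)) *
        (Complex.exp ((2 * Real.pi * x : ℝ) * I) - r)) from funext this]
    have hdd : ∀ x : ℝ, ((1 - r * Complex.exp ((2 * Real.pi * x : ℝ) * I)) *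
        (Complex.exp ((2 * Real.pi * x : ℝ) * I) - r) : ℂ) ≠ 0 := by
      intro x
      refine mul_ne_zero (ibp_den_ne r hr x) ?_
      intro h
      have h1 : Complex.exp ((2 * Real.pi * x : ℝ) * I) = r := sub_eq_zero.mp h
      have h2 := congrArg norm h1
      rw [Complex.norm_exp_ofReal_mul_I, Complex.norm_real, Real.norm_eq_abs] at h2
      linarith
    refine Continuous.div (by fun_prop) (by fun_prop) hdd
  have hbm : ∀ x, HasDerivAt (fun x => b x ^ m) (m * (2 * Real.pi * I) * (P x * b x ^ m)) x := by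
    intro x
    have h := (hbd x).pow m
    refine h.congr_deriv ?_
    obtain ⟨q, rfl⟩ : ∃ q, m = q + 1 := ⟨m - 1, by omega⟩
    simp only [Nat.add_sub_cancel]
    push_cast
    ring
  have hparts := intervalIntegral.integral_mul_deriv_eq_deriv_mul
    (a := 0) (b := 1) (u := e) (v := fun x => b x ^ m)
    (u' := fun x => -(2 * Real.pi * I * k) * e x)
    (v' := fun x => m * (2 * Real.pi * I) * (P x * b x ^ m))
    (fun x _ => hed x) (fun x _ => hbm x)
    ((by fun_prop : Continuous fun x => -(2 * Real.pi * I * k) * e x).intervalIntegrable 0 1)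
    ((by fun_prop : Continuous fun x => m * (2 * Real.pi * I) * (P x * b x ^ m)).intervalIntegrable 0 1)
  have hb1 : b 1 = b 0 := by
    simp only [hb]
    have : Complex.exp ((2 * Real.pi * (1 : ℝ) : ℝ) * I) = Complex.exp ((2 * Real.pi * (0 : ℝ) : ℝ) * I) := by
      push_cast
      simp [Complex.exp_two_pi_mul_I]
    rw [this]
  have he1 : e 1 = e 0 := by
    simp only [he]
    have h0 : Complex.exp (-((2 * Real.pi * k * (0 : ℝ) : ℝ) : ℂ) * I) = 1 := by simp
    have h1 : Complex.exp (-((2 * Real.pi * k * (1 : ℝ) : ℝ) : ℂ) * I) = 1 := by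
      rw [Complex.exp_eq_one_iff]
      refine ⟨-(k : ℤ), ?_⟩
      push_cast
      ring
    rw [h0, h1]
  rw [hb1, he1, sub_self, zero_sub] at hparts
  have hL : (∫ x in (0:ℝ)..1, e x * (m * (2 * Real.pi * I) * (P x * b x ^ m))) =
      (m * (2 * Real.pi * I)) * ∫ x in (0:ℝ)..1, e x * b x ^ m * P x := by
    rw [← intervalIntegral.integral_const_mul]
    congr 1
    ext x
    ring
  have hR : (∫ x in (0:ℝ)..1, -(2 * Real.pi * I * k) * e x * b x ^ m) =
      (-(2 * Real.pi * I * k)) * ∫ x in (0:ℝ)..1, e x * b x ^ m := by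
    rw [← intervalIntegral.integral_const_mul]
    congr 1
    ext x
    ring
  rw [hL, hR] at hparts
  have hm0 : (m : ℂ) ≠ 0 := by
    have : m ≠ 0 := by omega
    exact_mod_cast this
  have hpi : (Real.pi : ℂ) ≠ 0 := by exact_mod_cast Real.pi_ne_zero
  have hPI : ∫ x in (0:ℝ)..1, e x * b x ^ m * P x = (k / m : ℂ) * ∫ x in (0:ℝ)..1, e x * b x ^ m := by
    have h2 : (2 * Real.pi * I : ℂ) ≠ 0 := by simp [Complex.I_ne_zero]
    have h3 : (m * (2 * Real.pi * I) : ℂ) ≠ 0 := mul_ne_zero hm0 h2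
    apply mul_left_cancel₀ h3
    rw [hparts]
    field_simp
  have hsum : (∫ x in (0:ℝ)..1, e x * b x ^ m *
      ((α + (1 - r ^ 2) / (1 - 2 * r * Real.cos (2 * Real.pi * x) + r ^ 2) : ℝ) : ℂ)) =
      α * (∫ x in (0:ℝ)..1, e x * b x ^ m) + ∫ x in (0:ℝ)..1, e x * b x ^ m * P x := by
    rw [← intervalIntegral.integral_const_mul, ← intervalIntegral.integral_add]
    · congr 1
      ext x
      simp only [hP]
      push_cast
      ring
    · exact (by fun_prop : Continuous fun x => (α : ℂ) * (e x * b x ^ m)).intervalIntegrable 0 1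
    · exact (by fun_prop : Continuous fun x => e x * b x ^ m * P x).intervalIntegrable 0 1
  show (∫ x in (0:ℝ)..1, e x * b x ^ m *
      ((α + (1 - r ^ 2) / (1 - 2 * r * Real.cos (2 * Real.pi * x) + r ^ 2) : ℝ) : ℂ)) = _
  rw [hsum, hPI]
  show _ = ((α + k / m : ℝ) : ℂ) * ∫ x in (0:ℝ)..1, e x * b x ^ m
  push_cast
  ring

end FMT

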