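import Mathlib
import Pool.Agent.W418.FMT.Defs

/-!
Weyl equidistribution for continuous periodic functions with an irrational period.
-/

open MeasureTheory Filter Topology Complex

namespace FMT

/-- averages over the integers `0, ..., N - 1` -/
noncomputable def weylAv (β : ℝ) (f : C(AddCircle β, ℂ)) (N : ℕ) : ℂ :=
  (1 / (N : ℂ)) * ∑ n ∈ Finset.range N, f (((n : ℝ)) : AddCircle β)

/-- the mean over a period -/
noncomputable def weylMn (β : ℝ) (f : C(AddCircle β, ℂ)) : ℂ :=
  (1 / (β : ℂ)) * ∫ y in (0 : ℝ)..β, f ((y : ℝ) : AddCircle β)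

theorem weyl_ii (β : ℝ) (f : C(AddCircle β, ℂ)) (a b : ℝ) :
    IntervalIntegrable (fun y : ℝ => f ((y : ℝ) : AddCircle β)) volume a b :=
  (f.continuous.comp (AddCircle.continuous_mk' β)).intervalIntegrable a b

theorem weylAv_add (β : ℝ) (f g : C(AddCircle β, ℂ)) (N : ℕ) :
    weylAv β (f + g) N = weylAv β f N + weylAv β g N := by
  unfold weylAv
  simp only [ContinuousMap.add_apply, Finset.sum_add_distrib, mul_add]

theorem weylAv_smul (β : ℝ) (c : ℂ) (f : C(AddCircle β, ℂ)) (N : ℕ) :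
    weylAv β (c • f) N = c * weylAv β f N := by
  unfold weylAv
  simp only [ContinuousMap.smul_apply, smul_eq_mul, ← Finset.mul_sum]
  ring

theorem weylMn_add (β : ℝ) (f g : C(AddCircle β, ℂ)) :
    weylMn β (f + g) = weylMn β f + weylMn β g := by
  unfold weylMn
  simp only [ContinuousMap.add_apply]
  rw [intervalIntegral.integral_add (weyl_ii β f 0 β) (weyl_ii β g 0 β), mul_add]

theorem weylMn_smul (β : ℝ) (c : ℂ) (f : C(AddCircle β, ℂ)) :
    weylMn β (c • f) = c * weylMn β f := by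
  unfold weylMn
  simp only [ContinuousMap.smul_apply, smul_eq_mul]
  rw [intervalIntegral.integral_const_mul]
  ring

theorem weylAv_norm (β : ℝ) [Fact (0 < β)] (f : C(AddCircle β, ℂ)) (N : ℕ) :
    ‖weylAv β f N‖ ≤ ‖f‖ := by
  unfold weylAv
  rcases Nat.eq_zero_or_pos N with rfl | hN
  · simp
  · rw [norm_mul]
    have h1 : ‖∑ n ∈ Finset.range N, f (((n : ℝ)) : AddCircle β)‖ ≤ N * ‖f‖ := by
      refine (norm_sum_le _ _).trans ?_
      refine (Finset.sum_le_sum (g := fun _ => ‖f‖) fun n _ => f.norm_coe_le_norm _).trans ?_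
      simp
    have h2 : ‖(1 / (N : ℂ))‖ = 1 / (N : ℝ) := by simp
    rw [h2]
    have hN' : (0 : ℝ) < N := by exact_mod_cast hN
    calc 1 / (N : ℝ) * ‖∑ n ∈ Finset.range N, f (((n : ℝ)) : AddCircle β)‖
        ≤ 1 / (N : ℝ) * (N * ‖f‖) := by gcongr
      _ = ‖f‖ := by field_simp

theorem weylMn_norm (β : ℝ) [hf : Fact (0 < β)] (f : C(AddCircle β, ℂ)) :
    ‖weylMn β f‖ ≤ ‖f‖ := by
  have hβ : 0 < β := hf.out
  unfold weylMn
  rw [norm_mul]
  have h1 : ‖∫ y in (0 : ℝ)..β, f ((y : ℝ) : AddCircle β)‖ ≤ ‖f‖ * |β - 0| :=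
    intervalIntegral.norm_integral_le_of_norm_le_const fun x _ => f.norm_coe_le_norm _
  rw [sub_zero, abs_of_pos hβ] at h1
  have h2 : ‖(1 / (β : ℂ))‖ = 1 / β := by
    rw [norm_div, norm_one, Complex.norm_real, Real.norm_eq_abs, abs_of_pos hβ]
  rw [h2]
  calc 1 / β * ‖∫ y in (0 : ℝ)..β, f ((y : ℝ) : AddCircle β)‖
      ≤ 1 / β * (‖f‖ * β) := by gcongr
    _ = ‖f‖ := by field_simp

theorem weyl_q_ne (β : ℝ) (hβ0 : 0 < β) (hβ : Irrational β) (j : ℤ) (hj : j ≠ 0) :
    Complex.exp (2 * Real.pi * Complex.I * j / β) ≠ 1 := by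
  intro h
  rw [Complex.exp_eq_one_iff] at h
  obtain ⟨n, hn⟩ := h
  have hβc : (β : ℂ) ≠ 0 := by exact_mod_cast hβ0.ne'
  have h1 : (j : ℂ) = n * β := by
    have h2 : (2 * Real.pi * Complex.I : ℂ) ≠ 0 := Complex.two_pi_I_ne_zero
    have h3 : (2 * Real.pi * Complex.I : ℂ) * j = (2 * Real.pi * Complex.I) * (n * β) := by
      field_simp at hn
      linear_combination (2 * Real.pi * Complex.I : ℂ) * hn
    exact mul_left_cancel₀ h2 h3
  have h4 : (j : ℝ) = n * β := by exact_mod_cast h1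
  have hn0 : n ≠ 0 := by
    rintro rfl
    apply hj
    have : (j : ℝ) = 0 := by rw [h4]; simp
    exact_mod_cast this
  apply hβ
  refine ⟨(j : ℚ) / n, ?_⟩
  have hn0' : (n : ℝ) ≠ 0 := by exact_mod_cast hn0
  push_cast
  rw [h4]
  field_simp

theorem weyl_fourier (β : ℝ) [hf : Fact (0 < β)] (hβ : Irrational β) (j : ℤ) :
    Tendsto (weylAv β (fourier j)) atTop (𝓝 (weylMn β (fourier j))) := by
  have hβ0 : 0 < β := hf.out
  have hβc : (β : ℂ) ≠ 0 := by exact_mod_cast hβ0.ne'
  by_cases hj : j = 0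
  · subst hj
    have h1 : weylMn β (fourier 0) = 1 := by
      unfold weylMn
      simp only [fourier_zero]
      rw [intervalIntegral.integral_const]
      simp [hβc]
    rw [h1]
    refine tendsto_const_nhds.congr' ?_
    filter_upwards [eventually_gt_atTop 0] with N hN
    unfold weylAv
    simp only [fourier_zero]
    have : (N : ℂ) ≠ 0 := by exact_mod_cast hN.ne'
    simp [this]
  · set q : ℂ := Complex.exp (2 * Real.pi * Complex.I * j / β) with hq
    have hq1 : q ≠ 1 := weyl_q_ne β hβ0 hβ j hj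
    have hqn : ‖q‖ = 1 := by
      have : (2 * Real.pi * Complex.I * j / β : ℂ) = ((2 * Real.pi * j / β : ℝ) : ℂ) * Complex.I := by
        push_cast; ring
      rw [hq, this, Complex.norm_exp_ofReal_mul_I]
    have h1 : weylMn β (fourier j) = 0 := by
      unfold weylMn
      have hc : (2 * Real.pi * Complex.I * j / β : ℂ) ≠ 0 := by
        refine div_ne_zero (mul_ne_zero Complex.two_pi_I_ne_zero ?_) hβc
        exact_mod_cast hj
      have h2 : ∀ y : ℝ, fourier j ((y : ℝ) : AddCircle β) =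
          Complex.exp ((2 * Real.pi * Complex.I * j / β : ℂ) * y) := by
        intro y
        rw [fourier_coe_apply]
        congr 1
        ring
      simp only [h2]
      rw [integral_exp_mul_complex hc]
      have h3 : Complex.exp ((2 * Real.pi * Complex.I * j / β : ℂ) * β) = 1 := by
        rw [Complex.exp_eq_one_iff]
        refine ⟨j, ?_⟩
        field_simp
      rw [h3]
      simp
    rw [h1]
    have h2 : ∀ N : ℕ, weylAv β (fourier j) N = (1 / (N : ℂ)) * ((q ^ N - 1) / (q - 1)) := by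
      intro N
      unfold weylAv
      rw [← geom_sum_eq hq1]
      congr 1
      refine Finset.sum_congr rfl fun n _ => ?_
      rw [fourier_coe_apply, hq, ← Complex.exp_nat_mul]
      congr 1
      push_cast
      ring
    refine squeeze_zero_norm (a := fun N : ℕ => 1 / (N : ℝ) * (2 / ‖q - 1‖)) ?_ ?_
    · intro N
      rw [h2, norm_mul, norm_div (q ^ N - 1)]
      have h3 : ‖(1 / (N : ℂ))‖ = 1 / (N : ℝ) := by simp
      rw [h3]
      have h4 : ‖q ^ N - 1‖ ≤ 2 := by
        refine (norm_sub_le _ _).trans ?_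
        rw [norm_pow, hqn, norm_one, one_pow]
        norm_num
      have h5 : 0 < ‖q - 1‖ := norm_pos_iff.2 (sub_ne_zero.2 hq1)
      gcongr
    · have := (tendsto_one_div_atTop_nhds_zero_nat (𝕜 := ℝ)).mul_const (2 / ‖q - 1‖)
      simpa using this

theorem weyl_span (β : ℝ) [hf : Fact (0 < β)] (hβ : Irrational β) (g : C(AddCircle β, ℂ))
    (hg : g ∈ Submodule.span ℂ (Set.range (@fourier β))) :
    Tendsto (weylAv β g) atTop (𝓝 (weylMn β g)) := by
  induction hg using Submodule.span_induction with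
  | mem x hx =>
    obtain ⟨j, rfl⟩ := hx
    exact weyl_fourier β hβ j
  | zero =>
    have h1 : weylMn β 0 = 0 := by unfold weylMn; simp
    have h2 : weylAv β 0 = fun _ => 0 := by
      funext N
      unfold weylAv
      simp
    rw [h1, h2]
    exact tendsto_const_nhds
  | add x y _ _ hx hy =>
    rw [weylMn_add]
    refine (hx.add hy).congr fun N => ?_
    rw [weylAv_add]
  | smul c x _ hx =>
    rw [weylMn_smul]
    refine (hx.const_mul c).congr fun N => ?_
    rw [weylAv_smul]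

theorem weyl_all (β : ℝ) [hf : Fact (0 < β)] (hβ : Irrational β) (f : C(AddCircle β, ℂ)) :
    Tendsto (weylAv β f) atTop (𝓝 (weylMn β f)) := by
  rw [Metric.tendsto_atTop]
  intro ε hε
  have hfc : f ∈ (Submodule.span ℂ (Set.range (@fourier β))).topologicalClosure := by
    rw [span_fourier_closure_eq_top]
    trivial
  have hfc' : f ∈ closure ((Submodule.span ℂ (Set.range (@fourier β)) : Set C(AddCircle β, ℂ))) :=
    hfc
  obtain ⟨g, hg, hfg⟩ := Metric.mem_closure_iff.1 hfc' (ε / 4) (by positivity)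
  obtain ⟨N₀, hN₀⟩ := Metric.tendsto_atTop.1 (weyl_span β hβ g hg) (ε / 4) (by positivity)
  refine ⟨N₀, fun N hN => ?_⟩
  have h1 := hN₀ N hN
  rw [dist_eq_norm] at h1 hfg ⊢
  have e1 : f = g + (f - g) := by abel
  have e2 : weylAv β f N = weylAv β g N + weylAv β (f - g) N := by
    rw [← weylAv_add, ← e1]
  have e3 : weylMn β f = weylMn β g + weylMn β (f - g) := by
    rw [← weylMn_add, ← e1]
  have h2 := weylAv_norm β (f - g) N
  have h3 := weylMn_norm β (f - g)
  have e4 : weylAv β f N - weylMn β f =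
      (weylAv β g N - weylMn β g) + (weylAv β (f - g) N - weylMn β (f - g)) := by
    rw [e2, e3]; ring
  rw [e4]
  calc ‖(weylAv β g N - weylMn β g) + (weylAv β (f - g) N - weylMn β (f - g))‖
      ≤ ‖weylAv β g N - weylMn β g‖ + ‖weylAv β (f - g) N - weylMn β (f - g)‖ := norm_add_le _ _
    _ ≤ ‖weylAv β g N - weylMn β g‖ + (‖weylAv β (f - g) N‖ + ‖weylMn β (f - g)‖) := by
        gcongr; exact norm_sub_le _ _
    _ < ε := by linarith

theorem weyl (h : ℝ → ℂ) (hc : Continuous h) (β : ℝ) (hβ0 : 0 < β) (hβ : Irrational β)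
    (hper : ∀ x, h (x + β) = h x) :
    Tendsto (fun N : ℕ => (1 / (N : ℂ)) * ∑ n ∈ Finset.range N, h n) atTop
      (𝓝 ((1 / (β : ℂ)) * ∫ y in (0 : ℝ)..β, h y)) := by
  have : Fact (0 < β) := ⟨hβ0⟩
  have hp : Function.Periodic h β := hper
  let f : C(AddCircle β, ℂ) := ⟨hp.lift, continuous_coinduced_dom.2 hc⟩
  have hfx : ∀ x : ℝ, f ((x : ℝ) : AddCircle β) = h x := fun x => rfl
  have h1 := weyl_all β hβ f
  unfold weylMn at h1
  simp only [hfx] at h1
  refine h1.congr fun N => ?_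
  unfold weylAv
  simp only [hfx]

end FMT

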