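import Mathlib
import Pool.Agent.W418.FMT.Defs
import Pool.Agent.W418.FMK.P3a
open MeasureTheory Filter Topology Complex

namespace FMT

lemma den_ne (r x : ℝ) (hr : |r| < 1) : (1 - (r : ℂ) * Complex.exp ((2 * Real.pi * x : ℝ) * I)) ≠ 0 := by
  intro h
  have h1 : (r : ℂ) * Complex.exp ((2 * Real.pi * x : ℝ) * I) = 1 := by
    have := sub_eq_zero.mp h
    exact this.symm
  have h2 := congrArg norm h1
  rw [norm_mul, Complex.norm_exp_ofReal_mul_I, mul_one, norm_one, Complex.norm_real, Real.norm_eq_abs] at h2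
  linarith

lemma exp_period (x : ℝ) : Complex.exp ((2 * Real.pi * (x + 1) : ℝ) * I) = Complex.exp ((2 * Real.pi * x : ℝ) * I) := by
  rw [show ((2 * Real.pi * (x + 1) : ℝ) * I : ℂ) = (2 * Real.pi * x : ℝ) * I + 2 * Real.pi * I by push_cast; ring]
  rw [Complex.exp_add, Complex.exp_two_pi_mul_I, mul_one]

theorem mean_tendsto (α r : ℝ) (hα : 0 < α) (hirr : Irrational α) (hr : |r| < 1)
    (Φ : ℝ → ℝ) (h0 : Φ 0 = 0) (hmono : StrictMono Φ) (hsurj : Function.Surjective Φ)
    (hder : ∀ x, HasDerivAt Φ (α + (1 - r ^ 2) / (1 - 2 * r * Real.cos (2 * Real.pi * x) + r ^ 2)) x)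
    (hper : ∀ x, Φ (x + 1) = Φ x + (1 + α))
    (hexp : ∀ x, Complex.exp ((2 * Real.pi * Φ x : ℝ) * I) = Complex.exp ((2 * Real.pi * (α * x) : ℝ) * I) *
        ((Complex.exp ((2 * Real.pi * x : ℝ) * I) - r) / (1 - r * Complex.exp ((2 * Real.pi * x : ℝ) * I))))
    (L : Set ℝ) (hL : ∀ x, x ∈ L ↔ ∃ n : ℤ, Φ x = n) (m k : ℕ) :
    Tendsto (mean L (k + m * α)) atTop
      (𝓝 (∫ x in (0 : ℝ)..1, Complex.exp (-(2 * Real.pi * k * x : ℝ) * I) *
      ((Complex.exp ((2 * Real.pi * x : ℝ) * I) - r) / (1 - r * Complex.exp ((2 * Real.pi * x : ℝ) * I))) ^ m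
      * ((α + (1 - r ^ 2) / (1 - 2 * r * Real.cos (2 * Real.pi * x) + r ^ 2) : ℝ) : ℂ))) := by
  let e : ℝ ≃o ℝ := StrictMono.orderIsoOfSurjective Φ hmono hsurj
  have he : ∀ x, e x = Φ x := fun x => rfl
  let ψ : ℝ → ℝ := e.symm
  have hψΦ : ∀ x, ψ (Φ x) = x := fun x => e.symm_apply_apply x
  have hΦψ : ∀ x, Φ (ψ x) = x := fun x => e.apply_symm_apply x
  have hψc : Continuous ψ := e.symm.continuous
  let H : ℝ → ℂ := fun x => Complex.exp (-(2 * Real.pi * k * x : ℝ) * I) *
      ((Complex.exp ((2 * Real.pi * x : ℝ) * I) - r) / (1 - r * Complex.exp ((2 * Real.pi * x : ℝ) * I))) ^ m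
  have hHc : Continuous H := by
    apply Continuous.mul
    · fun_prop
    · apply Continuous.pow
      apply Continuous.div
      · fun_prop
      · fun_prop
      · intro x; exact den_ne r x hr
  have hHp : ∀ x, H (x + 1) = H x := by
    intro x
    simp only [H]
    rw [exp_period]
    congr 1
    rw [show (-(2 * Real.pi * k * (x + 1) : ℝ) * I : ℂ) = -(2 * Real.pi * k * x : ℝ) * I - (k : ℤ) * (2 * Real.pi * I) by push_cast; ring]
    rw [Complex.exp_sub, Complex.exp_int_mul_two_pi_mul_I, div_one]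
  have hψp : ∀ y, ψ (y + (1 + α)) = ψ y + 1 := by
    intro y
    have : Φ (ψ y + 1) = y + (1 + α) := by rw [hper, hΦψ]
    rw [← this, hψΦ]
  let h : ℝ → ℂ := fun y => H (ψ y)
  have hhc : Continuous h := hHc.comp hψc
  have hirr' : Irrational (1 + α) := by
    have := hirr.ratCast_add 1
    simpa using this
  have hweyl := weyl h hhc (1 + α) (by linarith) hirr' (by
    intro y
    simp only [h]
    rw [hψp, hHp])
  have hΦT : ∀ T : ℕ, Φ T = (1 + α) * T := by
    intro T
    induction T with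
    | zero => simp [h0]
    | succ n ih =>
      push_cast
      rw [hper, ih]
      ring
  have hterm : ∀ (l : ℝ) (n : ℤ), Φ l = n →
      Complex.exp (-(2 * Real.pi * (k + m * α) * l : ℝ) * I) = H l := by
    intro l n hn
    have h1 := hexp l
    rw [hn] at h1
    rw [show ((2 * Real.pi * (n : ℝ) : ℝ) * I : ℂ) = (n : ℤ) * (2 * Real.pi * I) by push_cast; ring,
      Complex.exp_int_mul_two_pi_mul_I] at h1
    have h2 : ((Complex.exp ((2 * Real.pi * l : ℝ) * I) - r) / (1 - r * Complex.exp ((2 * Real.pi * l : ℝ) * I))) =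
        Complex.exp (-(2 * Real.pi * (α * l) : ℝ) * I) := by
      have h3 : Complex.exp (-(2 * Real.pi * (α * l) : ℝ) * I) * Complex.exp ((2 * Real.pi * (α * l) : ℝ) * I) = 1 := by
        rw [← Complex.exp_add]
        rw [show (-(2 * Real.pi * (α * l) : ℝ) * I + (2 * Real.pi * (α * l) : ℝ) * I : ℂ) = 0 by ring]
        exact Complex.exp_zero
      calc _ = (Complex.exp (-(2 * Real.pi * (α * l) : ℝ) * I) * Complex.exp ((2 * Real.pi * (α * l) : ℝ) * I)) *
            ((Complex.exp ((2 * Real.pi * l : ℝ) * I) - r) / (1 - r * Complex.exp ((2 * Real.pi * l : ℝ) * I))) := by rw [h3, one_mul]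
        _ = Complex.exp (-(2 * Real.pi * (α * l) : ℝ) * I) * (Complex.exp ((2 * Real.pi * (α * l) : ℝ) * I) *
            ((Complex.exp ((2 * Real.pi * l : ℝ) * I) - r) / (1 - r * Complex.exp ((2 * Real.pi * l : ℝ) * I)))) := by ring
        _ = _ := by rw [← h1, mul_one]
    simp only [H]
    rw [h2, ← Complex.exp_nat_mul, ← Complex.exp_add]
    congr 1
    push_cast
    ring
  -- identify the mean
  have hmean : ∀ T : ℕ, mean L (k + m * α) T = (1 / (T : ℂ)) * ∑ n ∈ Finset.range ⌈(1 + α) * (T : ℝ)⌉₊, h n := by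
    intro T
    unfold mean
    congr 1
    have hset : L ∩ Set.Ico (0 : ℝ) T = (((Finset.range ⌈(1 + α) * (T : ℝ)⌉₊).image (fun n : ℕ => ψ n) : Finset ℝ) : Set ℝ) := by
      ext x
      simp only [Set.mem_inter_iff, Set.mem_Ico, Finset.coe_image, Finset.coe_range, Set.mem_image, Set.mem_Iio]
      constructor
      · rintro ⟨hx, hx0, hxT⟩
        obtain ⟨n, hn⟩ := (hL x).mp hx
        have hn0 : (0 : ℝ) ≤ n := by
          rw [← hn, ← h0]
          exact hmono.monotone hx0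
        have hn0' : 0 ≤ n := by exact_mod_cast hn0
        obtain ⟨n', rfl⟩ := Int.eq_ofNat_of_zero_le hn0'
        refine ⟨n', ?_, ?_⟩
        · rw [Nat.lt_ceil, ← hΦT]
          have := hmono hxT
          rw [hn] at this
          exact_mod_cast this
        · have : ((n' : ℤ) : ℝ) = (n' : ℝ) := by norm_cast
          rw [← this, ← hn, hψΦ]
      · rintro ⟨n, hn, rfl⟩
        refine ⟨(hL _).mpr ⟨n, by rw [hΦψ]; norm_cast⟩, ?_, ?_⟩
        · have h1 : ψ 0 = 0 := by rw [← h0, hψΦ, h0]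
          have : ψ 0 ≤ ψ n := e.symm.monotone (by positivity)
          linarith
        · rw [Nat.lt_ceil, ← hΦT] at hn
          have : ψ n < ψ (Φ T) := e.symm.strictMono hn
          rwa [hψΦ] at this
    rw [hset, finsum_mem_coe_finset, Finset.sum_image]
    · apply Finset.sum_congr rfl
      intro n _
      have := hterm (ψ n) n (by rw [hΦψ]; norm_cast)
      exact this
    · intro a _ b _ hab
      have : (a : ℝ) = b := e.symm.injective hab
      exact_mod_cast this
  have hceil : Tendsto (fun T : ℕ => ((⌈(1 + α) * (T : ℝ)⌉₊ : ℝ) / (T : ℝ))) atTop (𝓝 (1 + α)) :=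
    (tendsto_nat_ceil_mul_div_atTop (by linarith : (0 : ℝ) ≤ 1 + α)).comp tendsto_natCast_atTop_atTop
  have hN : Tendsto (fun T : ℕ => ⌈(1 + α) * (T : ℝ)⌉₊) atTop atTop := by
    apply tendsto_nat_ceil_atTop.comp
    apply Tendsto.const_mul_atTop (by linarith : (0 : ℝ) < 1 + α) tendsto_natCast_atTop_atTop
  have hlim := hweyl.comp hN
  have hprod : Tendsto (fun T : ℕ => (((⌈(1 + α) * (T : ℝ)⌉₊ : ℝ) / (T : ℝ) : ℝ) : ℂ) *
      ((1 / ((⌈(1 + α) * (T : ℝ)⌉₊ : ℕ) : ℂ)) * ∑ n ∈ Finset.range ⌈(1 + α) * (T : ℝ)⌉₊, h n)) atTop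
      (𝓝 (((1 + α : ℝ) : ℂ) * ((1 / ((1 + α : ℝ) : ℂ)) * ∫ y in (0 : ℝ)..(1 + α), h y))) := by
    apply Tendsto.mul
    · exact (Complex.continuous_ofReal.tendsto _).comp hceil
    · exact hlim
  have hcv : (∫ y in (0 : ℝ)..(1 + α), h y) = ∫ x in (0 : ℝ)..1, Complex.exp (-(2 * Real.pi * k * x : ℝ) * I) *
      ((Complex.exp ((2 * Real.pi * x : ℝ) * I) - r) / (1 - r * Complex.exp ((2 * Real.pi * x : ℝ) * I))) ^ m
      * ((α + (1 - r ^ 2) / (1 - 2 * r * Real.cos (2 * Real.pi * x) + r ^ 2) : ℝ) : ℂ) := by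
    have h1 : Φ 1 = 1 + α := by
      have := hper 0
      rw [zero_add, h0, zero_add] at this
      exact this
    have hc' : Continuous (fun x : ℝ => α + (1 - r ^ 2) / (1 - 2 * r * Real.cos (2 * Real.pi * x) + r ^ 2)) := by
      apply Continuous.add continuous_const
      apply Continuous.div continuous_const (by fun_prop)
      intro x
      have hc1 := Real.cos_le_one (2 * Real.pi * x)
      have hc2 := Real.neg_one_le_cos (2 * Real.pi * x)
      have habs := abs_lt.mp hr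
      have : 0 < 1 - 2 * r * Real.cos (2 * Real.pi * x) + r ^ 2 := by
        rcases le_or_gt 0 r with hr0 | hr0
        · nlinarith [mul_le_mul_of_nonneg_left hc1 hr0, sq_pos_of_pos (show 0 < 1 - r by linarith)]
        · nlinarith [mul_le_mul_of_nonneg_left hc2 (neg_nonneg.mpr hr0.le), sq_pos_of_pos (show 0 < 1 + r by linarith)]
      exact this.ne'
    have h2 := intervalIntegral.integral_deriv_smul_comp (a := 0) (b := 1) (f := Φ)
      (f' := fun x => α + (1 - r ^ 2) / (1 - 2 * r * Real.cos (2 * Real.pi * x) + r ^ 2)) (g := h)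
      (fun x _ => hder x) hc'.continuousOn hhc
    rw [h0, h1] at h2
    rw [← h2]
    apply intervalIntegral.integral_congr
    intro x _
    simp only [Function.comp, h, hψΦ, H, Complex.real_smul]
    ring
  have hfinal : ((1 + α : ℝ) : ℂ) * ((1 / ((1 + α : ℝ) : ℂ)) * ∫ y in (0 : ℝ)..(1 + α), h y) =
      ∫ x in (0 : ℝ)..1, Complex.exp (-(2 * Real.pi * k * x : ℝ) * I) *
      ((Complex.exp ((2 * Real.pi * x : ℝ) * I) - r) / (1 - r * Complex.exp ((2 * Real.pi * x : ℝ) * I))) ^ m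
      * ((α + (1 - r ^ 2) / (1 - 2 * r * Real.cos (2 * Real.pi * x) + r ^ 2) : ℝ) : ℂ) := by
    rw [← hcv, ← mul_assoc]
    have : ((1 + α : ℝ) : ℂ) ≠ 0 := by
      have : (1 + α : ℝ) ≠ 0 := by linarith
      exact_mod_cast this
    field_simp
  rw [hfinal] at hprod
  refine hprod.congr' ?_
  filter_upwards [eventually_gt_atTop 0] with T hT
  rw [hmean]
  have hT' : (T : ℂ) ≠ 0 := by exact_mod_cast hT.ne'
  have hc : ((⌈(1 + α) * (T : ℝ)⌉₊ : ℕ) : ℂ) ≠ 0 := by
    have h1 : 0 < ⌈(1 + α) * (T : ℝ)⌉₊ := by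
      rw [Nat.ceil_pos]
      have : (0 : ℝ) < T := by exact_mod_cast hT
      have : (0 : ℝ) < 1 + α := by linarith
      positivity
    exact_mod_cast h1.ne'
  push_cast
  field_simp

end FMT
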