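import Mathlib
import Pool.Agent.W418.FMT.Defs

open MeasureTheory Filter Topology Complex

namespace FMT

theorem bd_of_phase (α : ℝ) (hα : 0 < α) (Φ : ℝ → ℝ) (hmono : StrictMono Φ)
    (hper : ∀ x, Φ (x + 1) = Φ x + (1 + α)) (L : Set ℝ) (hL : ∀ x, x ∈ L ↔ ∃ n : ℤ, Φ x = n) : BD L := by
  classical
  refine ⟨⌈2 + α⌉₊, fun x => ?_⟩
  let F : Finset ℤ := Finset.Icc ⌈Φ x⌉ ⌊Φ x + (1 + α)⌋
  have hmaps : Set.MapsTo (fun l => ⌊Φ l⌋) (L ∩ Set.Ico x (x + 1)) (F : Set ℤ) := by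
    rintro l ⟨hl, h1, h2⟩
    obtain ⟨n, hn⟩ := (hL l).mp hl
    simp only [F, Finset.coe_Icc, Set.mem_Icc]
    have h3 : Φ x ≤ Φ l := hmono.monotone h1
    have h4 : Φ l ≤ Φ x + (1 + α) := by
      rw [← hper x]
      exact hmono.monotone h2.le
    rw [hn, Int.floor_intCast]
    constructor
    · rw [Int.ceil_le, ← hn]; exact h3
    · rw [Int.le_floor, ← hn]; exact h4
  have hinj : Set.InjOn (fun l => ⌊Φ l⌋) (L ∩ Set.Ico x (x + 1)) := by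
    rintro l ⟨hl, _⟩ m ⟨hm, _⟩ h
    obtain ⟨n, hn⟩ := (hL l).mp hl
    obtain ⟨k, hk⟩ := (hL m).mp hm
    simp only [hn, hk, Int.floor_intCast] at h
    apply hmono.injective
    rw [hn, hk, h]
  refine ⟨Set.Finite.of_injOn hmaps hinj F.finite_toSet, ?_⟩
  refine (Set.ncard_le_ncard_of_injOn _ hmaps hinj F.finite_toSet).trans ?_
  rw [Set.ncard_coe_finset]
  simp only [F, Int.card_Icc]
  rw [Int.toNat_le]
  have h5 : ((⌊Φ x + (1 + α)⌋ : ℤ) : ℝ) ≤ Φ x + (1 + α) := Int.floor_le _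
  have h6 : Φ x ≤ ((⌈Φ x⌉ : ℤ) : ℝ) := Int.le_ceil _
  have h7 : (2 + α : ℝ) ≤ (⌈2 + α⌉₊ : ℝ) := Nat.le_ceil _
  have h8 : ((⌊Φ x + (1 + α)⌋ + 1 - ⌈Φ x⌉ : ℤ) : ℝ) ≤ ((⌈2 + α⌉₊ : ℤ) : ℝ) := by
    push_cast
    linarith
  exact_mod_cast h8

end FMT

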