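import Mathlib
import Pool.Agent.W418.FMT.Defs
import Pool.Agent.W418.FMT.T1
import Pool.Agent.W418.FMK.Main
import Pool.Agent.W418.FMK.P1
import Pool.Agent.W418.FMK.P2a
import Pool.Agent.W418.FMK.P2b
import Pool.Agent.W418.FMK.P3b
import Pool.Agent.W418.FMK.P3c
import Pool.Agent.W418.FMK.P3d
import Pool.Agent.W418.FMK.P3e
import Pool.Agent.W418.FMK.P4
import Pool.Agent.W418.FMK.P5
open MeasureTheory Filter Topology Complex

namespace FMT

theorem criterion' (L : Set ℝ) (hL : BD L) (d : ℝ) (hd : 0 < d)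
    (ξ : ℕ → ℝ) (hξ : ∀ i j : ℕ, i ≠ j → ∀ m : ℤ, ξ i - ξ j ≠ m * d)
    (h : ∀ i, {j : ℤ | Tendsto (mean L (ξ i + j * d)) atTop (𝓝 0)}.Finite)
    (f : ℝ → ℂ) (hf : Integrable f) (hsupp : volume {x | f x ≠ 0} < ⊤) (w : ℂ)
    (ht : ∀ᵐ x : ℝ, Summable (fun l : L => f (x - l)) ∧ ∑' l : L, f (x - l) = w) :
    f =ᵐ[volume] 0 :=
  criterion (fun L hL s hs hM f hf w ht => link L hL s hs hM f hf w ht)
    (fun g hg τ hτ F h => per_trig g hg τ hτ F h)
    (fun ω hω a X hX h => exp_poly ω hω a X hX h) L hL d hd ξ hξ h f hf hsupp w ht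

theorem ks_main' (α r : ℝ) (hα : 0 < α) (hirr : Irrational α) (hr : |r| < 1)
    (hT : Transcendental ℤ r) :
    BD (ks α r) ∧ ∀ (f : ℝ → ℂ), Integrable f → volume {x | f x ≠ 0} < ⊤ → ∀ (w : ℂ),
      (∀ᵐ x : ℝ, Summable (fun l : ks α r => f (x - l)) ∧ ∑' l : ks α r, f (x - l) = w) →
      f =ᵐ[volume] 0 :=
  ks_main (fun L hL s hs hM f hf w ht => link L hL s hs hM f hf w ht)
    (fun g hg τ hτ F h => per_trig g hg τ hτ F h)
    (fun ω hω a X hX h => exp_poly ω hω a X hX h)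
    (fun r hr hT m k hm => coeff_ne r hr hT m k hm)
    (fun α r hα hr => phase α r hα hr)
    (fun r α hr m k hm => ibp r α hr m k hm)
    (fun α r hα hirr hr Φ h0 hmono hsurj hder hper hexp L hL m k =>
      mean_tendsto α r hα hirr hr Φ h0 hmono hsurj hder hper hexp L hL m k)
    (fun α hα Φ hmono hper L hL => bd_of_phase α hα Φ hmono hper L hL)
    α r hα hirr hr hT

end FMT
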